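import Pool.Agent.Helper88.GU.St
import Pool.Agent.Helper78.GU.SubHeight2

/-! # Project GU2, module YB: the dimension inequality for primes (helper78) -/

set_option autoImplicit false

namespace Pool.Agent.Helper78.GU2

open Pool.Agent.Helper88.GU

universe u

theorem hYB : StYB.{u} := by
  intro R _ _ n A _ P hP
  exact Pool.Agent.Helper78.GU.height_le_of_subalgebra n A P

end Pool.Agent.Helper78.GU2
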